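import Mathlib

set_option autoImplicit false

/-!
# The local dimension of the Boolean lattice is smaller than `n` for all `n ≥ 4`

The Boolean lattice `2^4` has a local realizer by four partial linear extensions in which every set
occurs at most three times (in fact exactly three times). Local dimension is subadditive for products, so
`ldim (2^n) ≤ n - ⌊n/4⌋` for every `n`, in particular `ldim (2^n) < n` for every `n ≥ 4`.
-/

namespace Pool.Agent.Results.MP_666a49_co.BooleanBelow

/-- A partial linear extension (ple) of the poset `P`: a (strict) linear order `lt` on the subset `carrier`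
such that `x < y` in `P` implies `lt x y` for all `x, y` in `carrier`. -/
structure PLE (P : Type) [PartialOrder P] where
  carrier : Set P
  lt : P → P → Prop
  irrefl : ∀ x ∈ carrier, ¬ lt x x
  trans : ∀ x ∈ carrier, ∀ y ∈ carrier, ∀ z ∈ carrier, lt x y → lt y z → lt x z
  total : ∀ x ∈ carrier, ∀ y ∈ carrier, x ≠ y → lt x y ∨ lt y x
  ext : ∀ x ∈ carrier, ∀ y ∈ carrier, x < y → lt x y

/-- A family of ples is a local realizer of `P` if (i) for every pair `x < y` some member contains both and
has `x` before `y`, and (ii) for every incomparable pair `x, y` some member contains both and has `x` before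
`y`, and some member contains both and has `y` before `x`. -/
structure IsLocalRealizer {P : Type} [PartialOrder P] {ι : Type} (L : ι → PLE P) : Prop where
  comparable : ∀ x y : P, x < y → ∃ i, x ∈ (L i).carrier ∧ y ∈ (L i).carrier ∧ (L i).lt x y
  incomparable : ∀ x y : P, ¬ x ≤ y → ¬ y ≤ x →
    (∃ i, x ∈ (L i).carrier ∧ y ∈ (L i).carrier ∧ (L i).lt x y) ∧
    (∃ i, x ∈ (L i).carrier ∧ y ∈ (L i).carrier ∧ (L i).lt y x)

/-- `P` has a finite local realizer in which every element lies in at most `d` members. -/
def HasLocalRealizer (P : Type) [PartialOrder P] (d : ℕ) : Prop :=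
  ∃ (ι : Type) (_ : Fintype ι) (L : ι → PLE P), IsLocalRealizer L ∧
    ∀ x : P, {i | x ∈ (L i).carrier}.ncard ≤ d

/-- The local dimension of `P`: the least `d` such that `P` has a local realizer in which every element
lies in at most `d` members. -/
noncomputable def ldim (P : Type) [PartialOrder P] : ℕ := sInf {d | HasLocalRealizer P d}

section general

variable {P Q R : Type} [PartialOrder P] [PartialOrder Q] [PartialOrder R]

theorem isLocalRealizer_iff {ι : Type} (L : ι → PLE P) : IsLocalRealizer L ↔
    ∀ x y : P, ¬ y ≤ x → ∃ i, x ∈ (L i).carrier ∧ y ∈ (L i).carrier ∧ (L i).lt x y := by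
  constructor
  · intro h x y hxy
    by_cases hle : x ≤ y
    · exact h.comparable x y (lt_of_le_not_ge hle hxy)
    · exact (h.incomparable x y hle hxy).1
  · intro h
    refine ⟨fun x y hxy => h x y (not_le_of_gt hxy), fun x y h1 h2 => ⟨h x y h2, ?_⟩⟩
    obtain ⟨i, a, b, c⟩ := h y x h1
    exact ⟨i, b, a, c⟩

/-- the pull back of a ple along a monotone map; ties are broken by a linear extension -/
noncomputable def PLE.pull (f : R → P) (hf : Monotone f) (L : PLE P) : PLE R where
  carrier := {x | f x ∈ L.carrier}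
  lt x y := L.lt (f x) (f y) ∨ (f x = f y ∧ toLinearExtension x < toLinearExtension y)
  irrefl := by
    rintro x hx (h | ⟨-, h⟩)
    · exact L.irrefl _ hx h
    · exact lt_irrefl _ h
  trans := by
    rintro x hx y hy z hz (h | ⟨e, h⟩) (h' | ⟨e', h'⟩)
    · exact Or.inl (L.trans _ hx _ hy _ hz h h')
    · exact Or.inl (e' ▸ h)
    · exact Or.inl (e ▸ h')
    · exact Or.inr ⟨e.trans e', h.trans h'⟩
  total := by
    intro x hx y hy hxy
    by_cases he : f x = f y
    · have hne : (toLinearExtension x) ≠ toLinearExtension y := fun h => hxy h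
      rcases lt_or_gt_of_ne hne with h | h
      · exact Or.inl (Or.inr ⟨he, h⟩)
      · exact Or.inr (Or.inr ⟨he.symm, h⟩)
    · rcases L.total _ hx _ hy he with h | h
      · exact Or.inl (Or.inl h)
      · exact Or.inr (Or.inl h)
  ext := by
    intro x hx y hy hxy
    by_cases he : f x = f y
    · refine Or.inr ⟨he, lt_of_le_of_ne (toLinearExtension.monotone hxy.le) ?_⟩
      exact fun h => hxy.ne h
    · exact Or.inl (L.ext _ hx _ hy (lt_of_le_of_ne (hf hxy.le) he))

/-- subadditivity of the local dimension -/
theorem HasLocalRealizer.prod {d e : ℕ} (hP : HasLocalRealizer P d) (hQ : HasLocalRealizer Q e)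
    (f : R → P) (hf : Monotone f) (g : R → Q) (hg : Monotone g)
    (hfg : ∀ x y, f x ≤ f y → g x ≤ g y → x ≤ y) : HasLocalRealizer R (d + e) := by
  obtain ⟨ι, _, L, hL, hLd⟩ := hP
  obtain ⟨κ, _, M, hM, hMe⟩ := hQ
  rw [isLocalRealizer_iff] at hL hM
  refine ⟨ι ⊕ κ, inferInstance,
    Sum.elim (fun i => (L i).pull f hf) (fun j => (M j).pull g hg), ?_, fun x => ?_⟩
  · rw [isLocalRealizer_iff]
    intro x y hxy
    by_cases h : f y ≤ f x
    · have h' : ¬ g y ≤ g x := fun h' => hxy (hfg _ _ h h')
      obtain ⟨j, a, b, c⟩ := hM _ _ h'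
      exact ⟨Sum.inr j, a, b, Or.inl c⟩
    · obtain ⟨i, a, b, c⟩ := hL _ _ h
      exact ⟨Sum.inl i, a, b, Or.inl c⟩
  · have h1 : {i | x ∈ (Sum.elim (fun i => (L i).pull f hf) (fun j => (M j).pull g hg) i).carrier} =
        Sum.inl '' {i | f x ∈ (L i).carrier} ∪ Sum.inr '' {j | g x ∈ (M j).carrier} := by
      ext i
      rcases i with i | j
      · simp [PLE.pull]
      · simp [PLE.pull]
    rw [h1]
    refine (Set.ncard_union_le _ _).trans ?_
    rw [Set.ncard_image_of_injective _ Sum.inl_injective,
      Set.ncard_image_of_injective _ Sum.inr_injective]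
    exact Nat.add_le_add (hLd _) (hMe _)

end general

/-- the Boolean lattice `2^(m+k)` as a product -/
theorem bool_add {m k d e : ℕ} (h1 : HasLocalRealizer (Finset (Fin m)) d)
    (h2 : HasLocalRealizer (Finset (Fin k)) e) : HasLocalRealizer (Finset (Fin (m + k))) (d + e) := by
  refine h1.prod h2 (fun s => Finset.univ.filter fun i => Fin.castAdd k i ∈ s) ?_
    (fun s => Finset.univ.filter fun j => Fin.natAdd m j ∈ s) ?_ ?_
  · intro s t hst i hi
    simp only [Finset.mem_filter, Finset.mem_univ, true_and] at hi ⊢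
    exact hst hi
  · intro s t hst i hi
    simp only [Finset.mem_filter, Finset.mem_univ, true_and] at hi ⊢
    exact hst hi
  · intro s t hf hg x hx
    induction x using Fin.addCases with
    | left i =>
      have : i ∈ Finset.univ.filter fun i => Fin.castAdd k i ∈ s := by simpa using hx
      simpa using hf this
    | right j =>
      have : j ∈ Finset.univ.filter fun j => Fin.natAdd m j ∈ s := by simpa using hx
      simpa using hg this

theorem bool_zero : HasLocalRealizer (Finset (Fin 0)) 0 := by
  refine ⟨Empty, inferInstance, Empty.elim, ?_, fun x => ?_⟩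
  · rw [isLocalRealizer_iff]
    intro x y hxy
    exact absurd (le_of_eq (Subsingleton.elim y x)) hxy
  · rw [Set.eq_empty_of_isEmpty {i | x ∈ (Empty.elim i : PLE (Finset (Fin 0))).carrier}]
    simp

theorem bool_one : HasLocalRealizer (Finset (Fin 1)) 1 := by
  refine ⟨Unit, inferInstance, fun _ =>
    { carrier := Set.univ
      lt := fun x y => x < y
      irrefl := fun x _ => lt_irrefl x
      trans := fun x _ y _ z _ h h' => h.trans h'
      total := ?_
      ext := fun x _ y _ h => h }, ?_, fun x => ?_⟩
  · intro x _ y _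
    revert x y
    decide
  · rw [isLocalRealizer_iff]
    intro x y hxy
    refine ⟨(), trivial, trivial, ?_⟩
    revert x y
    decide
  · refine (Set.ncard_le_ncard (Set.subset_univ _) Set.finite_univ).trans ?_
    simp

/-! ### The local realizer of `2^4` -/

/-- the set `s` is coded by the sum of the `2^i`, `i ∈ s` -/
def code (s : Finset (Fin 4)) : ℕ := ∑ i ∈ s, 2 ^ i.val

/-- the four ples; in the notation `24` for the set `{2, 4}` they are
`2, 24, 1, 12, 124, 3, 13, 23, 123, 34`;
`∅, 1, 4, 14, 3, 34, 134, 2, 23, 24, 124, 234, 1234`;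
`∅, 3, 23, 4, 34, 234, 1, 14, 13, 134, 12, 123, 1234`;
`∅, 13, 2, 12, 123, 4, 24, 234, 14, 124, 134, 1234`. -/
def lists : Fin 4 → List ℕ :=
  ![[2, 10, 1, 3, 11, 4, 5, 6, 7, 12],
    [0, 1, 8, 9, 4, 12, 13, 2, 6, 10, 11, 14, 15],
    [0, 4, 6, 8, 12, 14, 1, 9, 5, 13, 3, 7, 15],
    [0, 5, 2, 3, 7, 8, 10, 14, 9, 11, 13, 15]]

theorem lists_total : ∀ (i : Fin 4) (s t : Finset (Fin 4)), code s ∈ lists i → code t ∈ lists i →
    s ≠ t → (lists i).idxOf (code s) < (lists i).idxOf (code t) ∨
      (lists i).idxOf (code t) < (lists i).idxOf (code s) := by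
  decide +kernel

theorem lists_ext : ∀ (i : Fin 4) (s t : Finset (Fin 4)), code s ∈ lists i → code t ∈ lists i →
    s < t → (lists i).idxOf (code s) < (lists i).idxOf (code t) := by
  decide +kernel

theorem lists_realizer : ∀ (s t : Finset (Fin 4)), ¬ t ≤ s → ∃ i : Fin 4, code s ∈ lists i ∧
    code t ∈ lists i ∧ (lists i).idxOf (code s) < (lists i).idxOf (code t) := by
  decide +kernel

theorem lists_card : ∀ s : Finset (Fin 4), (Finset.univ.filter fun i => code s ∈ lists i).card ≤ 3 := by
  decide +kernel

theorem bool_four : HasLocalRealizer (Finset (Fin 4)) 3 := by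
  refine ⟨Fin 4, inferInstance, fun i =>
    { carrier := {s | code s ∈ lists i}
      lt := fun s t => (lists i).idxOf (code s) < (lists i).idxOf (code t)
      irrefl := fun x _ => lt_irrefl _
      trans := fun x _ y _ z _ h h' => h.trans h'
      total := fun s hs t ht h => lists_total i s t hs ht h
      ext := fun s hs t ht h => lists_ext i s t hs ht h }, ?_, fun s => ?_⟩
  · rw [isLocalRealizer_iff]
    intro s t hst
    exact lists_realizer s t hst
  · have h : {i : Fin 4 | s ∈ ({s | code s ∈ lists i} : Set (Finset (Fin 4)))} =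
        ((Finset.univ.filter fun i => code s ∈ lists i : Finset (Fin 4)) : Set (Fin 4)) := by
      ext i
      simp
    show {i : Fin 4 | s ∈ ({s | code s ∈ lists i} : Set (Finset (Fin 4)))}.ncard ≤ 3
    rw [h, Set.ncard_coe_finset]
    exact lists_card s

theorem bool_all (n : ℕ) : HasLocalRealizer (Finset (Fin n)) (n - n / 4) := by
  induction n using Nat.strong_induction_on with
  | _ n ih =>
    rcases Nat.lt_or_ge n 4 with h | h
    · rcases n with _ | n
      · exact bool_zero
      · have h1 := bool_add (ih n (by omega)) bool_one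
        rwa [show n - n / 4 + 1 = n + 1 - (n + 1) / 4 by omega] at h1
    · obtain ⟨m, rfl⟩ : ∃ m, n = m + 4 := ⟨n - 4, by omega⟩
      have h1 := bool_add (ih m (by omega)) bool_four
      rwa [show m - m / 4 + 3 = m + 4 - (m + 4) / 4 by omega] at h1

/-- For every `n` the Boolean lattice `2^n` has a local realizer in which every set lies in at most
`n - ⌊n/4⌋` ples; hence `ldim (2^n) ≤ n - ⌊n/4⌋`, and `ldim (2^n) < n` for all `n ≥ 4`. -/
theorem result : ∀ n : ℕ, HasLocalRealizer (Finset (Fin n)) (n - n / 4) ∧
    ldim (Finset (Fin n)) ≤ n - n / 4 ∧ (4 ≤ n → ldim (Finset (Fin n)) < n) := by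
  intro n
  have h1 : ldim (Finset (Fin n)) ≤ n - n / 4 := Nat.sInf_le (bool_all n)
  exact ⟨bool_all n, h1, fun h => lt_of_le_of_lt h1 (by omega)⟩

end Pool.Agent.Results.MP_666a49_co.BooleanBelow
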